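import Pool.Agent.Helper83.EIN2.Goals

set_option autoImplicit false

namespace Pool.Agent.Helper31.EIN2

open Finset Topology Filter Pool.Agent.Helper83.EIN Pool.Agent.Helper83.EIN2

theorem mle : Pool.Agent.Helper83.EIN2.MLE := by
  intro a β t v ht ht1 hβ hβ1 h
  have htn : t ≠ 0 := ht.ne'
  -- the cosines
  obtain ⟨p, hp⟩ : ∃ p, p = parML t v := ⟨_, rfl⟩
  have q0 : cs (v 1) (v 2) (v 3) = 1 - t * p 0 := by
    rw [hp]; simp only [parML, Matrix.cons_val]; field_simp; ring
  have q1 : cs (v 1) (v 3) (v 2) = 1 - t * p 1 := by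
    rw [hp]; simp only [parML, Matrix.cons_val]; field_simp; ring
  have q2 : cs (v 2) (v 3) (v 1) = -1 + t * p 2 := by
    rw [hp]; simp only [parML, Matrix.cons_val]; field_simp; ring
  have q3 : cs (v 4) (v 5) (v 1) = 1 - t * p 3 := by
    rw [hp]; simp only [parML, Matrix.cons_val]; field_simp; ring
  have q4 : cs (v 1) (v 4) (v 5) = -1 + t * p 4 := by
    rw [hp]; simp only [parML, Matrix.cons_val]; field_simp; ring
  have q5 : cs (v 1) (v 5) (v 4) = 1 - t * p 5 := by
    rw [hp]; simp only [parML, Matrix.cons_val]; field_simp; ring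
  have q6 : cs (v 2) (v 4) (v 0) = -1 + t * p 6 := by
    rw [hp]; simp only [parML, Matrix.cons_val]; field_simp; ring
  have q7 : cs (v 0) (v 4) (v 2) = 1 - t * p 7 := by
    rw [hp]; simp only [parML, Matrix.cons_val]; field_simp; ring
  have q8 : cs (v 0) (v 2) (v 4) = 1 - t * p 8 := by
    rw [hp]; simp only [parML, Matrix.cons_val]; field_simp; ring
  have q9 : cs (v 0) (v 5) (v 3) = 1 - t * p 9 := by
    rw [hp]; simp only [parML, Matrix.cons_val]; field_simp; ring
  have q10 : cs (v 0) (v 3) (v 5) = -1 + t * p 10 := by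
    rw [hp]; simp only [parML, Matrix.cons_val]; field_simp; ring
  have q11 : cs (v 3) (v 5) (v 0) = 1 - t * p 11 := by
    rw [hp]; simp only [parML, Matrix.cons_val]; field_simp; ring
  have e0 := h.e0
  have e1 := h.e1
  have e2 := h.e2
  have e3 := h.e3
  have e4 := h.e4
  have e5 := h.e5
  rw [q6, q11] at e0
  rw [q2, q3] at e1
  rw [q7, q1] at e2
  rw [q9, q0] at e3
  rw [q8, q5] at e4
  rw [q10, q4] at e5
  have p0 := h.pos 0
  have p1 := h.pos 1
  have p2 := h.pos 2
  have p3 := h.pos 3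
  have p4 := h.pos 4
  have p5 := h.pos 5
  -- the projection identities
  have r0 : v 2 = v 1 * (1 - t * p 0) + v 3 * (-1 + t * p 2) := by
    rw [← q0, ← q2, Pool.Agent.Helper83.EIN2.cs_comm (v 2) (v 3)]; exact proj p1 p3 p2
  have r1 : v 3 = v 1 * (1 - t * p 1) + v 2 * (-1 + t * p 2) := by
    rw [← q1, ← q2]; exact proj p1 p2 p3
  have r2 : v 1 = v 2 * (1 - t * p 0) + v 3 * (1 - t * p 1) := by
    rw [← q0, ← q1, Pool.Agent.Helper83.EIN2.cs_comm (v 1) (v 2), Pool.Agent.Helper83.EIN2.cs_comm (v 1) (v 3)]; exact proj p2 p3 p1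
  have r3 : v 5 = v 1 * (1 - t * p 5) + v 4 * (1 - t * p 3) := by
    rw [← q5, ← q3]; exact proj p1 p4 p5
  have r4 : v 1 = v 4 * (-1 + t * p 4) + v 5 * (1 - t * p 5) := by
    rw [← q4, ← q5, Pool.Agent.Helper83.EIN2.cs_comm (v 1) (v 4), Pool.Agent.Helper83.EIN2.cs_comm (v 1) (v 5)]; exact proj p4 p5 p1
  have r5 : v 4 = v 1 * (-1 + t * p 4) + v 5 * (1 - t * p 3) := by
    rw [← q4, ← q3, Pool.Agent.Helper83.EIN2.cs_comm (v 4) (v 5)]; exact proj p1 p5 p4
  have r6 : v 0 = v 2 * (1 - t * p 8) + v 4 * (1 - t * p 7) := by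
    rw [← q8, ← q7, Pool.Agent.Helper83.EIN2.cs_comm (v 0) (v 2), Pool.Agent.Helper83.EIN2.cs_comm (v 0) (v 4)]; exact proj p2 p4 p0
  have r7 : v 2 = v 0 * (1 - t * p 8) + v 4 * (-1 + t * p 6) := by
    rw [← q8, ← q6, Pool.Agent.Helper83.EIN2.cs_comm (v 2) (v 4)]; exact proj p0 p4 p2
  have r8 : v 4 = v 0 * (1 - t * p 7) + v 2 * (-1 + t * p 6) := by
    rw [← q7, ← q6]; exact proj p0 p2 p4
  have r9 : v 5 = v 0 * (1 - t * p 9) + v 3 * (1 - t * p 11) := by
    rw [← q9, ← q11]; exact proj p0 p3 p5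
  have r10 : v 0 = v 3 * (-1 + t * p 10) + v 5 * (1 - t * p 9) := by
    rw [← q10, ← q9, Pool.Agent.Helper83.EIN2.cs_comm (v 0) (v 3), Pool.Agent.Helper83.EIN2.cs_comm (v 0) (v 5)]; exact proj p3 p5 p0
  have r11 : v 3 = v 0 * (-1 + t * p 10) + v 5 * (1 - t * p 11) := by
    rw [← q10, ← q11, Pool.Agent.Helper83.EIN2.cs_comm (v 3) (v 5)]; exact proj p0 p5 p3
  rw [← hp]
  clear q0 q1 q2 q3 q4 q5 q6 q7 q8 q9 q10 q11 hp
  have hL : lenML a β t p = v := by
    funext i
    fin_cases i
    · simp only [lenML, Matrix.cons_val, Fin.zero_eta]; linear_combination -e0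
    · simp only [lenML, Matrix.cons_val, Fin.mk_one]; linear_combination -e1
    · simp only [lenML, Matrix.cons_val, Fin.reduceFinMk]; linear_combination -e2
    · simp only [lenML, Matrix.cons_val, Fin.reduceFinMk]; linear_combination -e3
    · simp only [lenML, Matrix.cons_val, Fin.reduceFinMk]; linear_combination -e4
    · simp only [lenML, Matrix.cons_val, Fin.reduceFinMk]; linear_combination -e5
  refine ⟨hL, ?_⟩
  -- the excesses
  have hE : t * ((1 - t) * ((1 - β) * p 1 + β * p 0) +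
      t * ((1 - a) * p 7 + (1 - a) * p 9 + a * p 2 - (1 - a) * p 3)) = v 2 + v 3 - v 1 := by
    linear_combination e1 - e2 - e3
  have hF1 : t * ((1 - t) * ((1 - β) * p 5 + β * p 4) +
      t * (a * p 8 + a * p 10 - a * p 2 + (1 - a) * p 3)) = v 1 + v 4 - v 5 := by
    linear_combination e5 - e1 - e4
  have hF2 : t * ((1 - t) * ((1 - β) * p 1 + (1 - β) * p 5 + β * p 6 - (1 - β) * p 11) +
      t * ((1 - a) * p 7 + a * p 8)) = v 2 + v 4 - v 0 := by
    linear_combination e0 - e2 - e4
  have hF3 : t * ((1 - t) * (-(β * p 6) + (1 - β) * p 11 + β * p 0 + β * p 4) +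
      t * ((1 - a) * p 9 + a * p 10)) = v 0 + v 3 - v 5 := by
    linear_combination e5 - e0 - e3
  simp only [FML, hL]
  funext i
  fin_cases i
  · simp only [Matrix.cons_val, Fin.zero_eta, Pi.zero_apply]
    apply mul_left_cancel₀ htn
    linear_combination hE + r0
  · simp only [Matrix.cons_val, Fin.mk_one, Pi.zero_apply]
    apply mul_left_cancel₀ htn
    linear_combination hE + r1
  · simp only [Matrix.cons_val, Fin.reduceFinMk, Pi.zero_apply]
    apply mul_left_cancel₀ (mul_ne_zero htn htn)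
    linear_combination -hE + r2 - t * p 0 * e2 - t * p 1 * e3
  · simp only [Matrix.cons_val, Fin.reduceFinMk, Pi.zero_apply]
    apply mul_left_cancel₀ htn
    linear_combination hF1 - r3
  · simp only [Matrix.cons_val, Fin.reduceFinMk, Pi.zero_apply]
    apply mul_left_cancel₀ htn
    linear_combination hF1 + r4
  · simp only [Matrix.cons_val, Fin.reduceFinMk, Pi.zero_apply]
    apply mul_left_cancel₀ htn
    linear_combination hF1 + r5
  · simp only [Matrix.cons_val, Fin.reduceFinMk, Pi.zero_apply]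
    apply mul_left_cancel₀ htn
    linear_combination hF2 - r6
  · simp only [Matrix.cons_val, Fin.reduceFinMk, Pi.zero_apply]
    apply mul_left_cancel₀ htn
    linear_combination hF2 + r7
  · simp only [Matrix.cons_val, Fin.reduceFinMk, Pi.zero_apply]
    apply mul_left_cancel₀ htn
    linear_combination hF2 + r8
  · simp only [Matrix.cons_val, Fin.reduceFinMk, Pi.zero_apply]
    apply mul_left_cancel₀ htn
    linear_combination hF3 - r9
  · simp only [Matrix.cons_val, Fin.reduceFinMk, Pi.zero_apply]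
    apply mul_left_cancel₀ htn
    linear_combination hF3 + r10
  · simp only [Matrix.cons_val, Fin.reduceFinMk, Pi.zero_apply]
    apply mul_left_cancel₀ htn
    linear_combination hF3 + r11

end Pool.Agent.Helper31.EIN2
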